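import Pool.Agent.H110R3.BP.Sub

/-!
Sokal's inequality for plane bipartite graphs with smaller side degree at least four.
-/

set_option autoImplicit false

namespace Pool.Agent.Results.MP_abed8b_co.PlaneDegreeFour

/-- `f` is a drawing of `G` in the plane with straight non-crossing edges: vertices are distinct
points, no vertex lies in the interior of an edge, and the interiors of different edges are
disjoint. -/
def StraightDrawing {V : Type} (G : SimpleGraph V) (f : V → ℝ × ℝ) : Prop :=
  Function.Injective f ∧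
  (∀ u v w : V, G.Adj u v → f w ∉ openSegment ℝ (f u) (f v)) ∧
  (∀ u v u' v' : V, G.Adj u v → G.Adj u' v' → s(u, v) ≠ s(u', v') →
    Disjoint (openSegment ℝ (f u) (f v)) (openSegment ℝ (f u') (f v')))

/-- Let `G` be a finite bipartite graph with sides `A`, `Aᶜ` and side degrees at most `dA`, `dB`,
where `min dA dB ≥ 4`, which is drawn in the plane with straight non-crossing edges. Then the
chromatic polynomial (written as the subgraph expansion) is positive at all real
`q > min dA dB`. -/
theorem result (V : Type) [Fintype V] [DecidableEq V] (G : SimpleGraph V) [DecidableRel G.Adj]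
    (A : Set V) (dA dB : ℕ) (hA : ∀ u v : V, G.Adj u v → (u ∈ A ↔ v ∉ A))
    (_hdA : ∀ v : V, v ∈ A → G.degree v ≤ dA) (_hdB : ∀ v : V, v ∉ A → G.degree v ≤ dB)
    (h4 : 4 ≤ min dA dB) (f : V → ℝ × ℝ) (hf : StraightDrawing G f) (q : ℝ)
    (hq : ((min dA dB : ℕ) : ℝ) < q) :
    0 < ∑ S ∈ G.edgeFinset.powerset, (-1 : ℝ) ^ S.card *
      q ^ Nat.card (SimpleGraph.fromEdgeSet (S : Set (Sym2 V))).ConnectedComponent := by
  classical
  have h4' : (4 : ℝ) ≤ ((min dA dB : ℕ) : ℝ) := by exact_mod_cast h4
  refine Pool.Agent.H110R3.BP.expansion_pos G ?_ f hf q (by linarith)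
  refine ⟨SimpleGraph.Coloring.mk (fun v => if v ∈ A then 0 else 1) ?_⟩
  intro u v huv
  have h := hA u v huv
  by_cases hu : u ∈ A
  · have hv : v ∉ A := h.1 hu
    simp [hu, hv]
  · have hv : v ∈ A := by
      by_contra hv
      exact hu (h.2 hv)
    simp [hu, hv]

end Pool.Agent.Results.MP_abed8b_co.PlaneDegreeFour
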